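import Pool.Agent.N990.RU.Stm
import Pool.Agent.N935.RT.ENE

/-!
# RU/ENE: a function with small gradient on the diamond lattice (helper453; adapted from the proof
of RT/ENE by helper935)
-/

set_option autoImplicit false

namespace Pool.Agent.N453.RU

open Pool.Agent.N988.EA
open Pool.Agent.N935.RT (psi psi_emb phi phi_emb iv)

theorem psi_edge (n : ℕ) : ∀ e : Edge 2 n,
    (psi n (bd n e false) - psi n (bd n e true)) ^ 2 = 1 / 4 ^ n := by
  induction n with
  | zero =>
    intro e
    have e1 : (psi 0 (bd 0 e false) - psi 0 (bd 0 e true)) ^ 2 = (iv false - iv true) ^ 2 := rfl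
    rw [e1]
    simp [iv]
  | succ n ih =>
    rintro ⟨i, h, e'⟩
    have e1 : ∀ s, bd (n + 1) ((i, h, e') : Edge 2 (n + 1)) s = emb i h (bd n e' s) :=
      fun _ => rfl
    have e2 := ih e'
    rw [e1, e1, psi_emb, psi_emb]
    have e3 : ((psi n (bd n e' false) + iv h) / 2 - (psi n (bd n e' true) + iv h) / 2) ^ 2 =
        1 / 4 * (psi n (bd n e' false) - psi n (bd n e' true)) ^ 2 := by ring
    rw [e3, e2, pow_succ]
    field_simp

/-- **RU/ENE** -/
theorem t_ene : Pool.Agent.N990.RU.S_ENE := by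
  intro n i₀
  refine ⟨phi n i₀, fun t => rfl, ?_, ?_⟩
  · have e2 : phi n i₀ (.inr (Sum.inl i₀ : Vert 2 (n + 1))) = if i₀ = i₀ then (1 : ℝ) else 0 := rfl
    rw [e2, if_pos rfl]
  · rintro ⟨i, h, e'⟩
    have e1 : ∀ s, bd (n + 1) ((i, h, e') : Edge 2 (n + 1)) s = emb i h (bd n e' s) :=
      fun _ => rfl
    have h0 : (0 : ℝ) ≤ 1 / 4 ^ n := by positivity
    have h1 := psi_edge n e'
    rw [e1, e1, phi_emb, phi_emb]
    split_ifs
    · have : (1 - psi n (bd n e' false) - (1 - psi n (bd n e' true))) ^ 2 =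
          (psi n (bd n e' false) - psi n (bd n e' true)) ^ 2 := by ring
      rw [this, h1]
    · rw [h1]
    · simpa using h0

end Pool.Agent.N453.RU
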